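import Pool.Agent.Lib_helper63.FS.Scal

/-! # Steps 4, 5, 6 for `5 ≤ p ≤ 6`, abstract form -/

set_option autoImplicit false

namespace Pool.Agent.FS

open MeasureTheory Set

/-- The data of one pair: `m = m_1`, `t0 = E 0`, `e = - E' 0`, `t2 = E'' 0`, `E` the function, `gam z =
- E' z`. -/
structure PairData (p : ℝ) (w : ℝ → ℝ) where
  m : ℝ
  t0 : ℝ
  e : ℝ
  t2 : ℝ
  E : ℝ → ℝ
  gam : ℝ → ℝ
  t0_nonneg : 0 ≤ t0
  e_nonneg : 0 ≤ e
  t2_nonneg : 0 ≤ t2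
  gam_nonneg : ∀ z, 0 < z → 0 ≤ gam z
  gam_le : ∀ z, 0 < z → gam z ≤ e
  mul_gam_le : ∀ z, 0 < z → z * gam z ≤ t0 - E z
  r_nonneg : ∀ z, 0 < z → 0 ≤ E z - t0 + e * z
  r_le : ∀ z, 0 < z → E z - t0 + e * z ≤ t2 * z ^ 2 / 2
  int : IntegrableOn (fun z => w z * (E z - t0 + e * z)) (Ioi 0)
  m_ge : (p - 2) / p * e + (p - 2) * (p - 3) / (2 * p * (p - 1)) * t2 ≤ m - t0

/-- The functional `G`. -/
noncomputable def PairData.G {p : ℝ} {w : ℝ → ℝ} (d : PairData p w) (c : ℝ) : ℝ :=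
  p * (p - 1) / 2 * d.m + ((2 : ℝ) ^ (p - 1) - 1 - p * (p - 1) / 2) * d.t0 +
    ((2 : ℝ) ^ (p - 2) + p - 2 - p * (p - 1) / 2) * d.e +
    c * ∫ z in Ioi (0 : ℝ), w z * (d.E z - d.t0 + d.e * z)

theorem PairData.U_bounds {p c : ℝ} {w : ℝ → ℝ} (h5 : 5 ≤ p) (h6 : p ≤ 6) (hc : 0 ≤ c)
    (hw : ∀ z, 0 < z → 0 ≤ w z) (hwi : IntegrableOn (fun z => w z * z ^ 2) (Ioi 0))
    (hk2 : c * ∫ z in Ioi (0 : ℝ), w z * z ^ 2 =
      (2 : ℝ) ^ (p - 3) + 2 * p - 4 - p * (p - 1) / 2) (d : PairData p w) :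
    0 ≤ d.G c - ((2 : ℝ) ^ (p - 1) - 1) * d.t0 ∧
    d.G c - ((2 : ℝ) ^ (p - 1) - 1) * d.t0 ≤
      (p * (p - 1) / 2 + ((2 : ℝ) ^ (p - 3) + 2 * p - 4 - p * (p - 1) / 2) /
        (2 * ((p - 2) * (p - 3) / (2 * p * (p - 1))))) * (d.m - d.t0) +
      (((2 : ℝ) ^ (p - 2) + p - 2 - p * (p - 1) / 2) -
        ((2 : ℝ) ^ (p - 3) + 2 * p - 4 - p * (p - 1) / 2) * ((p - 2) / p) /
        (2 * ((p - 2) * (p - 3) / (2 * p * (p - 1))))) * d.e := by
  have h0 : 0 ≤ p - 5 := by linarith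
  have h1 : p - 5 ≤ 1 := by linarith
  obtain ⟨hy1, hy2⟩ := fs_two_pow h0 h1
  have e2 : (2 : ℝ) ^ (p - 2) = 8 * (2 : ℝ) ^ (p - 5) := by
    rw [show (p - 2 : ℝ) = ((3 : ℕ) : ℝ) + (p - 5) by push_cast; ring,
      Real.rpow_add (by norm_num : (0 : ℝ) < 2), Real.rpow_natCast]
    norm_num
  have q1 : (0 : ℝ) < p - 1 := by linarith
  have q2 : (0 : ℝ) < p - 2 := by linarith
  have q3 : (0 : ℝ) < p - 3 := by linarith
  have q4 : (0 : ℝ) < p := by linarith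
  have hk1 : 0 ≤ (2 : ℝ) ^ (p - 2) + p - 2 - p * (p - 1) / 2 := by
    rw [e2]
    nlinarith [sq_nonneg (p - 5), mul_nonneg h0 (by linarith : 0 ≤ 1 - (p - 5))]
  have hbe : 0 < (p - 2) * (p - 3) / (2 * p * (p - 1)) := by positivity
  have hal : 0 ≤ (p - 2) / p := by positivity
  set k1 : ℝ := (2 : ℝ) ^ (p - 2) + p - 2 - p * (p - 1) / 2 with hk1d
  set k2 : ℝ := (2 : ℝ) ^ (p - 3) + 2 * p - 4 - p * (p - 1) / 2 with hk2d
  set be : ℝ := (p - 2) * (p - 3) / (2 * p * (p - 1)) with hbed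
  set al : ℝ := (p - 2) / p with hald
  set I : ℝ := ∫ z in Ioi (0 : ℝ), w z * (d.E z - d.t0 + d.e * z) with hI
  have hU : d.G c - ((2 : ℝ) ^ (p - 1) - 1) * d.t0 =
      p * (p - 1) / 2 * (d.m - d.t0) + k1 * d.e + c * I := by
    unfold PairData.G
    rw [← hI]
    ring
  have hI0 : 0 ≤ I := by
    rw [hI]
    apply setIntegral_nonneg measurableSet_Ioi
    intro z hz
    exact mul_nonneg (hw z hz) (d.r_nonneg z hz)
  have hI1 : I ≤ d.t2 / 2 * ∫ z in Ioi (0 : ℝ), w z * z ^ 2 := by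
    rw [hI, ← integral_const_mul]
    apply setIntegral_mono_on d.int (hwi.const_mul _) measurableSet_Ioi
    intro z hz
    have h2 := mul_le_mul_of_nonneg_left (d.r_le z hz) (hw z hz)
    refine h2.trans (le_of_eq ?_)
    ring
  have hcI : c * I ≤ d.t2 / 2 * k2 := by
    have h2 := mul_le_mul_of_nonneg_left hI1 hc
    refine h2.trans (le_of_eq ?_)
    rw [← hk2]
    ring
  have hn : 0 ≤ d.m - d.t0 := by
    have h2 := d.m_ge
    have h3 := mul_nonneg hal d.e_nonneg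
    have h4 := mul_nonneg hbe.le d.t2_nonneg
    linarith
  have hC1 : 0 ≤ p * (p - 1) / 2 := by nlinarith
  have hk2n : 0 ≤ k2 := by
    rw [← hk2]
    apply mul_nonneg hc
    apply setIntegral_nonneg measurableSet_Ioi
    intro z hz
    exact mul_nonneg (hw z hz) (sq_nonneg z)
  rw [hU]
  constructor
  · have h2 := mul_nonneg hC1 hn
    have h3 := mul_nonneg hk1 d.e_nonneg
    have h4 := mul_nonneg hc hI0
    linarith
  · have h2 : d.t2 ≤ ((d.m - d.t0) - al * d.e) / be := by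
      rw [le_div_iff₀ hbe]
      have h3 := d.m_ge
      linarith
    have h3 : d.t2 / 2 * k2 ≤ ((d.m - d.t0) - al * d.e) / be / 2 * k2 := by
      apply mul_le_mul_of_nonneg_right _ hk2n
      linarith
    have h4 : ((d.m - d.t0) - al * d.e) / be / 2 * k2 =
        k2 / (2 * be) * (d.m - d.t0) - k2 * al / (2 * be) * d.e := by
      field_simp
    rw [h4] at h3
    linarith

/-- **Steps 4, 5, 6.** `G_V G_W ≤ κ G_VW`. -/
theorem fs_assembly {p c : ℝ} {w : ℝ → ℝ} (h5 : 5 ≤ p) (h6 : p ≤ 6) (hc : 0 ≤ c)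
    (hw : ∀ z, 0 < z → 0 ≤ w z) (hwi : IntegrableOn (fun z => w z * z ^ 2) (Ioi 0))
    (hk2 : c * ∫ z in Ioi (0 : ℝ), w z * z ^ 2 =
      (2 : ℝ) ^ (p - 3) + 2 * p - 4 - p * (p - 1) / 2) (d d' : PairData p w)
    {M t e GVW : ℝ} {EVW : ℝ → ℝ} (hM : d.m * d'.m ≤ M) (ht : t = d.t0 * d'.t0)
    (he : e = d.t0 * d'.e + d'.t0 * d.e + d.e * d'.e / p)
    (hE : ∀ z, 0 < z → d.E z * d'.E z - z * (1 + z) / p * (d.gam z * d'.gam z) ≤ EVW z)
    (hint : IntegrableOn (fun z => w z * (EVW z - t + e * z)) (Ioi 0))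
    (hG : GVW = p * (p - 1) / 2 * M + ((2 : ℝ) ^ (p - 1) - 1 - p * (p - 1) / 2) * t +
      ((2 : ℝ) ^ (p - 2) + p - 2 - p * (p - 1) / 2) * e +
      c * ∫ z in Ioi (0 : ℝ), w z * (EVW z - t + e * z)) :
    d.G c * d'.G c ≤ ((2 : ℝ) ^ (p - 1) - 1) * GVW := by
  obtain ⟨u1, u2⟩ := d.U_bounds h5 h6 hc hw hwi hk2
  obtain ⟨u1', u2'⟩ := d'.U_bounds h5 h6 hc hw hwi hk2
  have hp : 0 < p := by linarith
  have hal : 0 ≤ (p - 2) / p := div_nonneg (by linarith) hp.le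
  have hbe : 0 ≤ (p - 2) * (p - 3) / (2 * p * (p - 1)) := by
    apply div_nonneg
    · nlinarith
    · nlinarith
  have hne : (p - 2) / p * d.e ≤ d.m - d.t0 := by
    have h2 := d.m_ge
    have h4 := mul_nonneg hbe d.t2_nonneg
    linarith
  have hne' : (p - 2) / p * d'.e ≤ d'.m - d'.t0 := by
    have h2 := d'.m_ge
    have h4 := mul_nonneg hbe d'.t2_nonneg
    linarith
  have hform := fs_form h5 h6 rfl rfl rfl rfl rfl rfl d.e_nonneg d'.e_nonneg hne hne' u1 u1' u2 u2'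
  have hkap : 0 ≤ (2 : ℝ) ^ (p - 1) - 1 := by
    have : (1 : ℝ) ≤ (2 : ℝ) ^ (p - 1) := Real.one_le_rpow (by norm_num) (by linarith)
    linarith
  set kap : ℝ := (2 : ℝ) ^ (p - 1) - 1 with hkapd
  set k1 : ℝ := (2 : ℝ) ^ (p - 2) + p - 2 - p * (p - 1) / 2 with hk1d
  set C1 : ℝ := p * (p - 1) / 2 with hC1d
  set I : ℝ := ∫ z in Ioi (0 : ℝ), w z * (d.E z - d.t0 + d.e * z) with hI
  set I' : ℝ := ∫ z in Ioi (0 : ℝ), w z * (d'.E z - d'.t0 + d'.e * z) with hI'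
  have hC1 : 0 ≤ C1 := by
    rw [hC1d]
    nlinarith
  -- the integral
  have hJ : d.t0 * I' + d'.t0 * I ≤ ∫ z in Ioi (0 : ℝ), w z * (EVW z - t + e * z) := by
    have h2 : d.t0 * I' + d'.t0 * I = ∫ z in Ioi (0 : ℝ),
        (d.t0 * (w z * (d'.E z - d'.t0 + d'.e * z)) +
          d'.t0 * (w z * (d.E z - d.t0 + d.e * z))) := by
      rw [integral_add (d'.int.const_mul _) (d.int.const_mul _), integral_const_mul,
        integral_const_mul]
    rw [h2]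
    apply setIntegral_mono_on ((d'.int.const_mul _).add (d.int.const_mul _)) hint measurableSet_Ioi
    intro z hz
    have hz0 : 0 < z := hz
    have h3 := hE z hz0
    have h4 : d.t0 * (d'.E z - d'.t0 + d'.e * z) + d'.t0 * (d.E z - d.t0 + d.e * z) ≤
        EVW z - t + e * z := by
      have a1 := d.gam_nonneg z hz0
      have a1' := d'.gam_nonneg z hz0
      have a2 := d.gam_le z hz0
      have a2' := d'.gam_le z hz0
      have a3 := d.mul_gam_le z hz0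
      have a3' := d'.mul_gam_le z hz0
      -- `g g' ≥ z ^ 2 γ γ'`, `z e e' ≥ z γ γ'`
      have b1 : (z * d.gam z) * (z * d'.gam z) ≤ (d.t0 - d.E z) * (d'.t0 - d'.E z) :=
        mul_le_mul a3 a3' (mul_nonneg hz0.le a1') ((mul_nonneg hz0.le a1).trans a3)
      have b2 : d.gam z * d'.gam z ≤ d.e * d'.e := mul_le_mul a2 a2' a1' (a1.trans a2)
      have b3 : 0 ≤ (d.t0 - d.E z) * (d'.t0 - d'.E z) :=
        mul_nonneg ((mul_nonneg hz0.le a1).trans a3) ((mul_nonneg hz0.le a1').trans a3')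
      have b4 : z * (1 + z) / p * (d.gam z * d'.gam z) ≤
          (d.t0 - d.E z) * (d'.t0 - d'.E z) / p + z * (d.e * d'.e) / p := by
        have h5' : z * (1 + z) / p * (d.gam z * d'.gam z) =
            ((z * d.gam z) * (z * d'.gam z) + z * (d.gam z * d'.gam z)) / p := by
          field_simp
          ring
        rw [h5', ← add_div]
        apply div_le_div_of_nonneg_right _ hp.le
        have h6' := mul_le_mul_of_nonneg_left b2 hz0.le
        linarith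
      have b5 : (d.t0 - d.E z) * (d'.t0 - d'.E z) / p ≤ (d.t0 - d.E z) * (d'.t0 - d'.E z) := by
        rw [div_le_iff₀ hp]
        nlinarith
      rw [ht, he]
      have h7 : (d.t0 * d'.e + d'.t0 * d.e + d.e * d'.e / p) * z =
          d.t0 * d'.e * z + d'.t0 * d.e * z + z * (d.e * d'.e) / p := by
        field_simp
      rw [h7]
      nlinarith
    have h8 := mul_le_mul_of_nonneg_left h4 (hw z hz0)
    change d.t0 * (w z * (d'.E z - d'.t0 + d'.e * z)) +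
      d'.t0 * (w z * (d.E z - d.t0 + d.e * z)) ≤ w z * (EVW z - t + e * z)
    refine le_trans (le_of_eq ?_) h8
    ring
  have hGV : d.G c = kap * d.t0 + (d.G c - kap * d.t0) := by ring
  have hGW : d'.G c = kap * d'.t0 + (d'.G c - kap * d'.t0) := by ring
  have hU : d.G c - kap * d.t0 = C1 * (d.m - d.t0) + k1 * d.e + c * I := by
    unfold PairData.G
    rw [← hI]
    ring
  have hU' : d'.G c - kap * d'.t0 = C1 * (d'.m - d'.t0) + k1 * d'.e + c * I' := by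
    unfold PairData.G
    rw [← hI']
    ring
  have hprod : d.G c * d'.G c = kap ^ 2 * (d.t0 * d'.t0) +
      kap * d.t0 * (C1 * (d'.m - d'.t0) + k1 * d'.e + c * I') +
      kap * d'.t0 * (C1 * (d.m - d.t0) + k1 * d.e + c * I) +
      (d.G c - kap * d.t0) * (d'.G c - kap * d'.t0) := by
    rw [← hU, ← hU']
    ring
  rw [hprod, hG, ht, he]
  rw [ht, he] at hJ
  have c1 : kap * C1 * (d.m * d'.m) ≤ kap * C1 * M :=
    mul_le_mul_of_nonneg_left hM (mul_nonneg hkap hC1)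
  have c2 := mul_le_mul_of_nonneg_left hJ (mul_nonneg hkap hc)
  have c3 : kap * (k1 / p) * (d.e * d'.e) = kap * k1 * (d.e * d'.e / p) := by ring
  rw [c3] at hform
  set J : ℝ := ∫ z in Ioi (0 : ℝ), w z * (EVW z - d.t0 * d'.t0 +
    (d.t0 * d'.e + d'.t0 * d.e + d.e * d'.e / p) * z) with hJd
  have c4 : kap ^ 2 * (d.t0 * d'.t0) +
      kap * d.t0 * (C1 * (d'.m - d'.t0) + k1 * d'.e + c * I') +
      kap * d'.t0 * (C1 * (d.m - d.t0) + k1 * d.e + c * I) +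
      (kap * C1 * ((d.m - d.t0) * (d'.m - d'.t0)) + kap * k1 * (d.e * d'.e / p)) =
      kap * C1 * (d.m * d'.m) + kap * (kap - C1) * (d.t0 * d'.t0) +
      kap * k1 * (d.t0 * d'.e + d'.t0 * d.e + d.e * d'.e / p) +
      kap * c * (d.t0 * I' + d'.t0 * I) := by ring
  have c5 : kap * (C1 * M + (kap - C1) * (d.t0 * d'.t0) +
      k1 * (d.t0 * d'.e + d'.t0 * d.e + d.e * d'.e / p) + c * J) =
      kap * C1 * M + kap * (kap - C1) * (d.t0 * d'.t0) +
      kap * k1 * (d.t0 * d'.e + d'.t0 * d.e + d.e * d'.e / p) + kap * c * J := by ring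
  linarith

end Pool.Agent.FS

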