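import Mathlib

/-! # The scalar inequalities on `[5, 6]` -/

set_option autoImplicit false

namespace Pool.Agent.FS

/-- Bounds of `2 ^ s` on `[0, 1]`. -/
theorem fs_two_pow {s : ℝ} (h0 : 0 ≤ s) (h1 : s ≤ 1) :
    1 + 69 / 100 * s + 23 / 100 * s ^ 2 ≤ (2 : ℝ) ^ s ∧ (2 : ℝ) ^ s ≤ 1 + s := by
  constructor
  · have hl : (0.6931 : ℝ) < Real.log 2 := by
      have := Real.log_two_gt_d9
      linarith
    rw [Real.rpow_def_of_pos (by norm_num : (0 : ℝ) < 2)]
    have h2 : 0 ≤ Real.log 2 * s := mul_nonneg (by linarith) h0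
    have h3 := Real.quadratic_le_exp_of_nonneg h2
    have h4 : 69 / 100 * s ≤ Real.log 2 * s := by nlinarith
    have h5 : 23 / 100 * s ^ 2 ≤ (Real.log 2 * s) ^ 2 / 2 := by
      have h6 : (0.6931 : ℝ) ^ 2 ≤ Real.log 2 ^ 2 := by
        apply pow_le_pow_left₀ (by norm_num) hl.le
      have h7 : (Real.log 2 * s) ^ 2 = Real.log 2 ^ 2 * s ^ 2 := by ring
      rw [h7]
      nlinarith [sq_nonneg s]
    linarith
  · have h2 := rpow_one_add_le_one_add_mul_self (s := (1 : ℝ)) (by norm_num) h0 h1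
    have h3 : (1 : ℝ) + 1 = 2 := by norm_num
    rw [h3] at h2
    linarith

/-- The three polynomial inequalities. -/
theorem fs_poly {s y : ℝ} (h0 : 0 ≤ s) (h1 : s ≤ 1) (hy1 : 1 + 69 / 100 * s + 23 / 100 * s ^ 2 ≤ y)
    (hy2 : y ≤ 1 + s) :
    (5 + s) * (4 + s) / 2 * (8 * y - 2) ^ 2 ≤ (16 * y - 1) * ((3 + s) * (2 + s)) ^ 2 ∧
    (5 + s) * ((8 * y - 2) * (8 * y - 1)) ≤ (16 * y - 1) * ((3 + s) ^ 2 * (2 + s)) ∧
    (5 + s) * (8 * y - 1) ^ 2 ≤ (16 * y - 1) *
      ((4 + s) * (3 + s) ^ 2 / 2 + 8 * y + (3 + s) - (5 + s) * (4 + s) / 2) := by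
  have hs2 : 0 ≤ s ^ 2 := sq_nonneg s
  have hs3 : 0 ≤ s ^ 3 := by positivity
  have hs4 : 0 ≤ s ^ 4 := by positivity
  have hy0 : 1 ≤ y := by nlinarith
  -- `v` and `u`
  set v := y - (1 + 69 / 100 * s + 23 / 100 * s ^ 2) with hv
  set u := 1 + s - y with hu
  have hv0 : 0 ≤ v := by linarith
  have hu0 : 0 ≤ u := by linarith
  have h1s : 0 ≤ 1 - s := by linarith
  refine ⟨?_, ?_, ?_⟩
  · have h2 : (8 * y - 2) ^ 2 ≤ (6 + 8 * s) ^ 2 := by
      apply pow_le_pow_left₀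
      · linarith
      · linarith
    have h3 : (5 + s) * (4 + s) / 2 * (8 * y - 2) ^ 2 ≤ (5 + s) * (4 + s) / 2 * (6 + 8 * s) ^ 2 :=
      mul_le_mul_of_nonneg_left h2 (by positivity)
    have h4 : (15 + 11 * s + 3.68 * s ^ 2) * ((3 + s) * (2 + s)) ^ 2 ≤
        (16 * y - 1) * ((3 + s) * (2 + s)) ^ 2 := by
      apply mul_le_mul_of_nonneg_right _ (by positivity)
      nlinarith
    refine h3.trans (le_trans ?_ h4)
    nlinarith [mul_nonneg h0 h1s, mul_nonneg hs2 h1s, mul_nonneg hs3 h1s, mul_nonneg hs4 h1s,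
      pow_nonneg h0 5, pow_nonneg h0 6]
  · have h2 : (8 * y - 2) * (8 * y - 1) ≤ (6 + 8 * s) * (8 * y - 1) :=
      mul_le_mul_of_nonneg_right (by linarith) (by linarith)
    have h3 : (5 + s) * ((8 * y - 2) * (8 * y - 1)) ≤ (5 + s) * ((6 + 8 * s) * (8 * y - 1)) :=
      mul_le_mul_of_nonneg_left h2 (by positivity)
    refine h3.trans ?_
    have h5 : (5 + s) * ((6 + 8 * s) * (8 * y - 1)) ≤ (16 * y - 1) * ((3 + s) ^ 2 * (2 + s)) ↔
        0 ≤ y * (16 * ((3 + s) ^ 2 * (2 + s)) - 8 * ((5 + s) * (6 + 8 * s))) -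
          ((3 + s) ^ 2 * (2 + s) - (5 + s) * (6 + 8 * s)) := by
      constructor
      · intro h
        nlinarith
      · intro h
        nlinarith
    rw [h5]
    have h6 : 0 ≤ 16 * ((3 + s) ^ 2 * (2 + s)) - 8 * ((5 + s) * (6 + 8 * s)) := by
      nlinarith [mul_nonneg h0 h1s, mul_nonneg hs2 h1s]
    have h7 : (1 + 69 / 100 * s) * (16 * ((3 + s) ^ 2 * (2 + s)) - 8 * ((5 + s) * (6 + 8 * s))) ≤
        y * (16 * ((3 + s) ^ 2 * (2 + s)) - 8 * ((5 + s) * (6 + 8 * s))) := by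
      apply mul_le_mul_of_nonneg_right _ h6
      nlinarith
    nlinarith [mul_nonneg h0 h1s, mul_nonneg hs2 h1s, mul_nonneg hs3 h1s]
  · -- concave in `y`
    have key : ∀ z : ℝ, (16 * z - 1) *
        ((4 + s) * (3 + s) ^ 2 / 2 + 8 * z + (3 + s) - (5 + s) * (4 + s) / 2) -
        (5 + s) * (8 * z - 1) ^ 2 = -(64 * (3 + s)) * z ^ 2 +
          (16 * ((4 + s) * (3 + s) ^ 2 / 2 + (3 + s) - (5 + s) * (4 + s) / 2) - 8 +
            16 * (5 + s)) * z -
          ((4 + s) * (3 + s) ^ 2 / 2 + (3 + s) - (5 + s) * (4 + s) / 2) - (5 + s) := by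
      intro z
      ring
    have hA : 0 ≤ (16 * (1 + s) - 1) *
        ((4 + s) * (3 + s) ^ 2 / 2 + 8 * (1 + s) + (3 + s) - (5 + s) * (4 + s) / 2) -
        (5 + s) * (8 * (1 + s) - 1) ^ 2 := by
      nlinarith [mul_nonneg h0 h1s, mul_nonneg hs2 h1s, mul_nonneg hs3 h1s]
    have hB : 0 ≤ (16 * (1 + 69 / 100 * s + 23 / 100 * s ^ 2) - 1) *
        ((4 + s) * (3 + s) ^ 2 / 2 + 8 * (1 + 69 / 100 * s + 23 / 100 * s ^ 2) + (3 + s) -
          (5 + s) * (4 + s) / 2) -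
        (5 + s) * (8 * (1 + 69 / 100 * s + 23 / 100 * s ^ 2) - 1) ^ 2 := by
      nlinarith [mul_nonneg h0 h1s, mul_nonneg hs2 h1s, mul_nonneg hs3 h1s, mul_nonneg hs4 h1s,
        pow_nonneg h0 5]
    rw [key] at hA hB
    rw [← sub_nonneg, key]
    set P := -(64 * (3 + s)) with hP
    set Q := (16 * ((4 + s) * (3 + s) ^ 2 / 2 + (3 + s) - (5 + s) * (4 + s) / 2) - 8 +
            16 * (5 + s)) with hQ
    set R := ((4 + s) * (3 + s) ^ 2 / 2 + (3 + s) - (5 + s) * (4 + s) / 2) with hR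
    rcases eq_or_lt_of_le (le_trans hy1 hy2) with heq | hlt
    · have hyy : y = 1 + s := le_antisymm hy2 (by linarith)
      rw [hyy]
      exact hA
    · -- convex combination
      set L := (1 + s) - (1 + 69 / 100 * s + 23 / 100 * s ^ 2) with hL
      have hLpos : 0 < L := by linarith
      have huv : u + v = L := by
        rw [hu, hv, hL]
        ring
      have hmain : L * (P * y ^ 2 + Q * y - R - (5 + s)) =
          v * (P * (1 + s) ^ 2 + Q * (1 + s) - R - (5 + s)) +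
          u * (P * (1 + 69 / 100 * s + 23 / 100 * s ^ 2) ^ 2 +
            Q * (1 + 69 / 100 * s + 23 / 100 * s ^ 2) - R - (5 + s)) - P * u * v * L := by
        have e1 : y = 1 + s - u := by rw [hu]; ring
        have e2 : 1 + 69 / 100 * s + 23 / 100 * s ^ 2 = 1 + s - u - v := by
          rw [hv, hu]
          ring
        rw [e2, ← huv, e1]
        ring
      have hPn : P ≤ 0 := by
        rw [hP]
        nlinarith
      have h8 : 0 ≤ L * (P * y ^ 2 + Q * y - R - (5 + s)) := by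
        rw [hmain]
        have h9 := mul_nonneg hv0 hA
        have h10 := mul_nonneg hu0 hB
        have h11 : 0 ≤ -P * u * v * L := by
          have : 0 ≤ -P := by linarith
          positivity
        nlinarith
      exact nonneg_of_mul_nonneg_right h8 hLpos

/-- The form is nonnegative on the cone: the last step for `5 ≤ p ≤ 6`. Here
`k1 = 2 ^ (p - 2) + p - 2 - C1`, `k2 = 2 ^ (p - 3) + 2 * p - 4 - C1`, `C1 = p * (p - 1) / 2`,
`al = (p - 2) / p`, `be = (p - 2) * (p - 3) / (2 * p * (p - 1))`. -/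
theorem fs_form {p C1 k1 k2 al be kap : ℝ} (h5 : 5 ≤ p) (h6 : p ≤ 6)
    (hC1 : C1 = p * (p - 1) / 2) (hk1 : k1 = (2 : ℝ) ^ (p - 2) + p - 2 - C1)
    (hk2 : k2 = (2 : ℝ) ^ (p - 3) + 2 * p - 4 - C1) (hal : al = (p - 2) / p)
    (hbe : be = (p - 2) * (p - 3) / (2 * p * (p - 1))) (hkap : kap = (2 : ℝ) ^ (p - 1) - 1)
    {n e n' e' U U' : ℝ} (he : 0 ≤ e) (he' : 0 ≤ e') (hne : al * e ≤ n) (hne' : al * e' ≤ n')
    (hU : 0 ≤ U) (hU' : 0 ≤ U')
    (hUn : U ≤ (C1 + k2 / (2 * be)) * n + (k1 - k2 * al / (2 * be)) * e)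
    (hUn' : U' ≤ (C1 + k2 / (2 * be)) * n' + (k1 - k2 * al / (2 * be)) * e') :
    U * U' ≤ kap * C1 * (n * n') + kap * (k1 / p) * (e * e') := by
  obtain ⟨s, rfl⟩ : ∃ s, p = 5 + s := ⟨p - 5, by ring⟩
  have h0 : 0 ≤ s := by linarith
  have h1 : s ≤ 1 := by linarith
  obtain ⟨hy1, hy2⟩ := fs_two_pow h0 h1
  set y : ℝ := (2 : ℝ) ^ s with hy
  have e1 : (2 : ℝ) ^ (5 + s - 1) = 16 * y := by
    rw [show (5 + s - 1 : ℝ) = ((4 : ℕ) : ℝ) + s by push_cast; ring,
      Real.rpow_add (by norm_num : (0 : ℝ) < 2), Real.rpow_natCast]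
    norm_num
    exact hy.symm
  have e2 : (2 : ℝ) ^ (5 + s - 2) = 8 * y := by
    rw [show (5 + s - 2 : ℝ) = ((3 : ℕ) : ℝ) + s by push_cast; ring,
      Real.rpow_add (by norm_num : (0 : ℝ) < 2), Real.rpow_natCast]
    norm_num
    exact hy.symm
  have e3 : (2 : ℝ) ^ (5 + s - 3) = 4 * y := by
    rw [show (5 + s - 3 : ℝ) = ((2 : ℕ) : ℝ) + s by push_cast; ring,
      Real.rpow_add (by norm_num : (0 : ℝ) < 2), Real.rpow_natCast]
    norm_num
    exact hy.symm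
  rw [e2] at hk1
  rw [e3] at hk2
  rw [e1] at hkap
  have q1 : (5 + s - 1 : ℝ) = 4 + s := by ring
  have q2 : (5 + s - 2 : ℝ) = 3 + s := by ring
  have q3 : (5 + s - 3 : ℝ) = 2 + s := by ring
  rw [q1] at hC1 hbe
  rw [q2] at hal hbe
  rw [q3] at hbe
  obtain ⟨i1, i2, i3⟩ := fs_poly h0 h1 hy1 hy2
  have hp0 : (0 : ℝ) < 5 + s := by linarith
  have hp2 : (0 : ℝ) < 3 + s := by linarith
  have hp3 : (0 : ℝ) < 2 + s := by linarith
  have hp1 : (0 : ℝ) < 4 + s := by linarith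
  have hy0 : 1 ≤ y := by nlinarith [sq_nonneg s]
  -- the coefficients
  set a : ℝ := C1 + k2 / (2 * be) with ha
  set b : ℝ := k1 - k2 * al / (2 * be) with hb
  have hav : a = (5 + s) * (4 + s) / 2 * (8 * y - 2) / ((3 + s) * (2 + s)) := by
    rw [ha, hk2, hbe, hC1]
    field_simp
    ring
  have hcv : a * al + b = 8 * y - 1 := by
    rw [ha, hb, hk1, hal, hC1]
    field_simp
    ring
  have halv : al = (3 + s) / (5 + s) := hal
  have ha0 : 0 ≤ a := by
    rw [hav]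
    have : 0 ≤ 8 * y - 2 := by linarith
    positivity
  have hal0 : 0 < al := by
    rw [halv]
    positivity
  have hkap0 : 0 ≤ kap := by
    rw [hkap]
    linarith
  have hC10 : 0 ≤ C1 := by
    rw [hC1]
    nlinarith
  -- the three inequalities
  have j1 : a ^ 2 ≤ kap * C1 := by
    rw [hav, hkap, hC1, div_pow, div_le_iff₀ (by positivity)]
    have h7 : ((5 + s) * (4 + s) / 2 * (8 * y - 2)) ^ 2 =
        ((5 + s) * (4 + s) / 2) * ((5 + s) * (4 + s) / 2 * (8 * y - 2) ^ 2) := by ring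
    rw [h7]
    have h8 := mul_le_mul_of_nonneg_left i1 (by positivity : 0 ≤ (5 + s) * (4 + s) / 2)
    refine h8.trans (le_of_eq ?_)
    ring
  have j2 : a * (8 * y - 1) ≤ kap * C1 * al := by
    rw [hav, hkap, hC1, halv, div_mul_eq_mul_div, div_le_iff₀ (by positivity)]
    have h7 : (16 * y - 1) * ((5 + s) * (4 + s) / 2) * ((3 + s) / (5 + s)) *
        ((3 + s) * (2 + s)) = (4 + s) / 2 * ((16 * y - 1) * ((3 + s) ^ 2 * (2 + s))) := by
      field_simp
    rw [h7]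
    have h8 := mul_le_mul_of_nonneg_left i2 (by positivity : 0 ≤ (4 + s) / 2)
    refine le_trans (le_of_eq ?_) h8
    ring
  have j3 : (8 * y - 1) ^ 2 ≤ kap * C1 * al ^ 2 + kap * (k1 / (5 + s)) := by
    have h7 : kap * C1 * al ^ 2 + kap * (k1 / (5 + s)) = (16 * y - 1) *
        ((4 + s) * (3 + s) ^ 2 / 2 + 8 * y + (3 + s) - (5 + s) * (4 + s) / 2) / (5 + s) := by
      rw [hkap, hk1, hC1, halv]
      field_simp
      ring
    rw [h7, le_div_iff₀ hp0]
    refine le_trans (le_of_eq ?_) i3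
    ring
  -- the form
  set m : ℝ := n - al * e with hm
  set m' : ℝ := n' - al * e' with hm'
  have hm0 : 0 ≤ m := by linarith
  have hm0' : 0 ≤ m' := by linarith
  have hUU : U * U' ≤ (a * n + b * e) * (a * n' + b * e') :=
    mul_le_mul hUn hUn' hU' (hU.trans hUn)
  refine hUU.trans ?_
  have hn1 : a * n + b * e = a * m + (8 * y - 1) * e := by
    rw [← hcv, hm]
    ring
  have hn2 : a * n' + b * e' = a * m' + (8 * y - 1) * e' := by
    rw [← hcv, hm']
    ring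
  rw [hn1, hn2]
  have h9 : kap * C1 * (n * n') + kap * (k1 / (5 + s)) * (e * e') =
      kap * C1 * (m * m') + kap * C1 * al * (m * e' + e * m') +
        (kap * C1 * al ^ 2 + kap * (k1 / (5 + s))) * (e * e') := by
    rw [hm, hm']
    ring
  rw [h9]
  have k1' := mul_le_mul_of_nonneg_right j1 (mul_nonneg hm0 hm0')
  have k2' := mul_le_mul_of_nonneg_right j2 (add_nonneg (mul_nonneg hm0 he') (mul_nonneg he hm0'))
  have k3' := mul_le_mul_of_nonneg_right j3 (mul_nonneg he he')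
  have h10 : (a * m + (8 * y - 1) * e) * (a * m' + (8 * y - 1) * e') =
      a ^ 2 * (m * m') + a * (8 * y - 1) * (m * e' + e * m') + (8 * y - 1) ^ 2 * (e * e') := by
    ring
  rw [h10]
  linarith

end Pool.Agent.FS

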